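import Pool.Agent.H82.EOL.Stmts

/-!
Row LT of the board eol (MP_e1dfa1_lc): exchange of sums.
-/

set_option autoImplicit false

namespace Pool.Agent.H78.EOL

open Finset Pool.Agent.H82.SVL Pool.Agent.H82.EOL

theorem ind_true {p : Prop} (h : p) : ind p = 1 := by
  unfold ind
  rw [if_pos h]

theorem ind_false {p : Prop} (h : ¬ p) : ind p = 0 := by
  unfold ind
  rw [if_neg h]

theorem ind_nonneg (p : Prop) : 0 ≤ ind p := by
  by_cases h : p
  · rw [ind_true h]; norm_num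
  · rw [ind_false h]

theorem DLe_chk {D X : Type} [DecidableEq X] (I : EI D X) (q : ℕ) (h : I.Bd q) (x : X) :
    Tree.DLe (I.chk x) (4 * q) := by
  have hTo : Tree.DLe (I.To x) (2 * q) := by
    have := Tree.DLe.bind (h.1 x) (g := fun v => (I.P v).bind (fun u =>
      Tree.leaf (decide (v ≠ x ∧ u = x)))) (n := q + 0)
      (fun v => Tree.DLe.bind (h.2 v) (fun u => Tree.DLe_leaf _ _))
    exact this.mono (by omega)
  have hTi : Tree.DLe (I.Ti x) (2 * q) := by
    have := Tree.DLe.bind (h.2 x) (g := fun u => (I.S u).bind (fun v =>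
      Tree.leaf (decide (u ≠ x ∧ v = x)))) (n := q + 0)
      (fun u => Tree.DLe.bind (h.1 u) (fun v => Tree.DLe_leaf _ _))
    exact this.mono (by omega)
  have := Tree.DLe.bind hTo (g := fun o => (I.Ti x).bind (fun i =>
      Tree.leaf (isol (decide (x = I.x0)) o i))) (n := 2 * q + 0)
      (fun o => Tree.DLe.bind hTi (fun i => Tree.DLe_leaf _ _))
  exact this.mono (by omega)

section

variable {D X R : Type} [Fintype D] [DecidableEq D] [Fintype X] [DecidableEq X]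

/-- the property of the row CM -/
def BB {srt : D → ℕ} (h : Hid srt R) (Y : Finset D) (I : EI D X) (E : Finset D)
    (p : R × Om srt) (x : X) (τ : Om srt) : Prop :=
  Tree.run τ.1 (I.chk x) = true ∧
      ∀ a ∈ Tree.qs τ.1 (I.chk x), a ∉ E → a ∉ h.EG p.1 p.2 ∧ τ.1 a ∉ Y ∧
        τ.1 a ∉ (h.EG p.1 p.2 \ E).image p.2.1

theorem key {srt : D → ℕ} (h : Hid srt R) (Y : Finset D) (I : EI D X) (q : ℕ) (θ : ℝ)
    (E : Finset D) (π : Om srt) (hB : I.Bd q)
    (h1 : ∀ a, a ∉ E → ∑ p ∈ Tn h E π, ind (a ∈ h.EG p.1 p.2) ≤ θ * (Tn h E π).card)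
    (h2 : ∀ y, y ∉ Y → ∑ p ∈ Tn h E π, ind (y ∈ (h.EG p.1 p.2 \ E).image p.2.1)
      ≤ θ * (Tn h E π).card)
    (h3 : 2 * (4 * q) * θ ≤ 1 / 2) (x : X) (τ : Om srt) :
    ind (Tree.run τ.1 (I.chk x) = true ∧ Av Y E (Tree.qs τ.1 (I.chk x)) τ) *
      (((Tn h E π).card : ℝ) / 2) ≤ ∑ p ∈ Tn h E π, ind (BB h Y I E p x τ) := by
  by_cases hc : Tree.run τ.1 (I.chk x) = true ∧ Av Y E (Tree.qs τ.1 (I.chk x)) τ
  · rw [ind_true hc, one_mul]
    set V := Tree.qs τ.1 (I.chk x) \ E with hV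
    have hVc : V.card ≤ 4 * q :=
      (card_le_card sdiff_subset).trans (Tree.card_qs_le τ.1 (DLe_chk I q hB x))
    have e1 : ∀ p ∈ Tn h E π, 1 - ∑ a ∈ V, (ind (a ∈ h.EG p.1 p.2) +
        ind (τ.1 a ∈ (h.EG p.1 p.2 \ E).image p.2.1)) ≤ ind (BB h Y I E p x τ) := by
      intro p _
      have hnn : ∀ a ∈ V, 0 ≤ ind (a ∈ h.EG p.1 p.2) +
          ind (τ.1 a ∈ (h.EG p.1 p.2 \ E).image p.2.1) :=
        fun a _ => add_nonneg (ind_nonneg _) (ind_nonneg _)
      by_cases hb : BB h Y I E p x τ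
      · rw [ind_true hb]
        have := sum_nonneg hnn
        linarith
      · rw [ind_false hb]
        have hex : ∃ a ∈ V, a ∈ h.EG p.1 p.2 ∨ τ.1 a ∈ (h.EG p.1 p.2 \ E).image p.2.1 := by
          by_contra hno
          push Not at hno
          refine hb ⟨hc.1, fun a ha haE => ?_⟩
          have := hno a (mem_sdiff.mpr ⟨ha, haE⟩)
          exact ⟨this.1, hc.2 a ha haE, this.2⟩
        obtain ⟨a, ha, hor⟩ := hex
        have hs := single_le_sum hnn ha
        have hone : 1 ≤ ind (a ∈ h.EG p.1 p.2) +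
            ind (τ.1 a ∈ (h.EG p.1 p.2 \ E).image p.2.1) := by
          rcases hor with hor | hor
          · rw [ind_true hor]
            have := ind_nonneg (τ.1 a ∈ (h.EG p.1 p.2 \ E).image p.2.1)
            linarith
          · rw [ind_true hor]
            have := ind_nonneg (a ∈ h.EG p.1 p.2)
            linarith
        linarith
    have e2 := sum_le_sum e1
    rw [sum_sub_distrib, sum_const, nsmul_eq_mul, mul_one, sum_comm] at e2
    have e3 : ∑ a ∈ V, ∑ p ∈ Tn h E π, (ind (a ∈ h.EG p.1 p.2) +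
        ind (τ.1 a ∈ (h.EG p.1 p.2 \ E).image p.2.1)) ≤ ((Tn h E π).card : ℝ) / 2 := by
      have e4 : ∀ a ∈ V, ∑ p ∈ Tn h E π, (ind (a ∈ h.EG p.1 p.2) +
          ind (τ.1 a ∈ (h.EG p.1 p.2 \ E).image p.2.1)) ≤ 2 * (θ * (Tn h E π).card) := by
        intro a ha
        rw [mem_sdiff] at ha
        rw [sum_add_distrib]
        have := h1 a ha.2
        have := h2 (τ.1 a) (hc.2 a ha.1 ha.2)
        linarith
      have e5 := sum_le_sum e4
      rw [sum_const, nsmul_eq_mul] at e5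
      refine e5.trans ?_
      rcases V.eq_empty_or_nonempty with h0 | ⟨a, ha⟩
      · rw [h0, card_empty, Nat.cast_zero, zero_mul]
        positivity
      · have hpos : 0 ≤ θ * (Tn h E π).card := by
          refine le_trans (sum_nonneg (fun p _ => ind_nonneg _)) (h1 a (mem_sdiff.mp ha).2)
        have hc1 : (V.card : ℝ) ≤ 4 * q := by exact_mod_cast hVc
        calc (V.card : ℝ) * (2 * (θ * (Tn h E π).card))
            ≤ (4 * q) * (2 * (θ * (Tn h E π).card)) :=
              mul_le_mul_of_nonneg_right hc1 (by linarith)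
          _ = (2 * (4 * q) * θ) * (Tn h E π).card := by ring
          _ ≤ (1 / 2) * (Tn h E π).card :=
              mul_le_mul_of_nonneg_right h3 (Nat.cast_nonneg _)
          _ = ((Tn h E π).card : ℝ) / 2 := by ring
    linarith
  · rw [ind_false hc, zero_mul]
    exact sum_nonneg (fun p _ => ind_nonneg _)

end

theorem lt_thm (hX2 : S_X2) (hCM : S_CM) (hCL : S_CL) : S_LT := by
  intro D X R _ _ _ _ srt h Y I q θ E π hB hY hroom h1 h2 h3
  set N : ℝ := ((C E π).card : ℝ) with hN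
  have hNpos : 0 < N := by
    rw [hN]
    exact_mod_cast card_C_pos E π
  set A : Om srt → ℝ := fun σ => ∑ x, ind (Tree.run σ.1 (I.chk x) = true ∧
    Av Y E (Tree.qs σ.1 (I.chk x)) σ) with hA
  -- CM
  have c1 : ∀ p ∈ Tn h E π, ∑ x, ∑ τ ∈ C E π, ind (BB h Y I E p x τ) ≤
      N * ((∑ σ ∈ C (E ∪ h.EG p.1 p.2) p.2, A σ) / (C (E ∪ h.EG p.1 p.2) p.2).card) := by
    intro p hp
    have hp2 : p.2 ∈ C E π := (mem_filter.mp hp).2
    have hCe : C E p.2 = C E π := C_eq_of_mem hp2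
    have hm : (0 : ℝ) < ((C (E ∪ h.EG p.1 p.2) p.2).card : ℝ) := by
      exact_mod_cast card_C_pos _ _
    have c2 : ∀ x ∈ (univ : Finset X), ((C (E ∪ h.EG p.1 p.2) p.2).card : ℝ) *
        ∑ τ ∈ C E π, ind (BB h Y I E p x τ) ≤ N * ∑ τ ∈ C (E ∪ h.EG p.1 p.2) p.2,
          ind (Tree.run τ.1 (I.chk x) = true ∧ Av Y E (Tree.qs τ.1 (I.chk x)) τ) := by
      intro x _
      have := hCM D srt Y (h.EG p.1 p.2) (I.chk x) E p.2
      rw [hCe] at this
      exact this
    have c3 := sum_le_sum c2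
    rw [← mul_sum, ← mul_sum, sum_comm (s := univ) (t := C (E ∪ h.EG p.1 p.2) p.2)] at c3
    rw [← mul_div_assoc, le_div_iff₀ hm, mul_comm]
    exact c3
  have c4 := sum_le_sum c1
  rw [← mul_sum, ← hCL D R srt h E π A] at c4
  -- lower bound
  have c5 : (∑ x, ∑ τ ∈ C E π, ind (Tree.run τ.1 (I.chk x) = true ∧
      Av Y E (Tree.qs τ.1 (I.chk x)) τ)) * (((Tn h E π).card : ℝ) / 2) ≤
      ∑ p ∈ Tn h E π, ∑ x, ∑ τ ∈ C E π, ind (BB h Y I E p x τ) := by
    have e1 : ∑ p ∈ Tn h E π, ∑ x, ∑ τ ∈ C E π, ind (BB h Y I E p x τ) =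
        ∑ x, ∑ τ ∈ C E π, ∑ p ∈ Tn h E π, ind (BB h Y I E p x τ) := by
      rw [sum_comm]
      refine sum_congr rfl (fun x _ => ?_)
      rw [sum_comm]
    rw [e1, sum_mul]
    refine sum_le_sum (fun x _ => ?_)
    rw [sum_mul]
    refine sum_le_sum (fun τ _ => ?_)
    exact key h Y I q θ E π hB h1 h2 h3 x τ
  have c6 := hX2 D X srt Y I q E π hB hY hroom
  have c7 : N / 4 * (((Tn h E π).card : ℝ) / 2) ≤ N * ∑ p ∈ Tn h E π, A p.2 := by
    refine le_trans ?_ (c5.trans c4)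
    refine mul_le_mul_of_nonneg_right ?_ (by positivity)
    rw [← hN] at c6
    linarith
  have c8 : N * ((Tn h E π).card : ℝ) ≤ N * (8 * ∑ p ∈ Tn h E π, A p.2) := by nlinarith
  exact le_of_mul_le_mul_left c8 hNpos

end Pool.Agent.H78.EOL
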